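import Pool.Agent.helper57.MS.Spec2

/-! Row DEC: a function with vanishing normalised sum is decomposable -/

set_option autoImplicit false

namespace Pool.Agent.helper57.MS

open Finset Pool.Agent.RRank Pool.Agent.helper26.IM

theorem DEC_zero {K : Type} [Field K] {d l : ℕ} {Q : Fin d → Type}
    (c : (Fin d → Equiv.Perm (Fin l)) → K) (J : Finset (Fin d)) (s₀ : Fin d)
    (g g₀ : ((α : Fin d) → Q α) → K) : GmC l c 0 J s₀ g g₀ = HC l c g := by
  unfold GmC HC
  rw [Finset.filter_true_of_mem]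
  · refine Finset.sum_congr rfl (fun σ _ => ?_)
    congr 1
  · intro σ _ α _ i hi
    exact absurd hi (Nat.not_lt_zero _)

theorem DEC_last {K : Type} [Field K] {d l : ℕ} {Q : Fin d → Type}
    (S A : Finset (Fin d)) (s₀ : Fin d) (hl : 0 < l)
    (g g₀ : ((α : Fin d) → Q α) → K)
    (h : GmC l (nw K S A s₀) l S s₀ g g₀ = 0) : g₀ = 0 := by
  funext y
  have hx := congrFun h (fun w => y w.1)
  have e : GmC l (nw K S A s₀) l S s₀ g g₀ (fun w : Fin d × Fin l => y w.1) = (g₀ y) ^ l := by
    unfold GmC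
    rw [Finset.sum_apply, Finset.sum_eq_single (1 : Fin d → Equiv.Perm (Fin l))]
    · have h1 : nw K S A s₀ (1 : Fin d → Equiv.Perm (Fin l)) = 1 := by
        unfold nw sg
        rw [if_pos ⟨rfl, fun _ _ => rfl⟩]
        refine Finset.prod_eq_one (fun α _ => ?_)
        rw [Pi.one_apply, Equiv.Perm.sign_one]
        simp
      rw [h1, one_smul, Finset.prod_apply]
      rw [Finset.prod_congr rfl (g := fun _ => g₀ y) (fun i _ => by
        rw [if_pos (Fin.is_lt _)]
        rfl)]
      simp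
    · intro σ hσ hne
      rw [Finset.mem_filter] at hσ
      have h0 : nw K S A s₀ σ = 0 := by
        unfold nw
        rw [if_neg]
        rintro ⟨h1, h2⟩
        apply hne
        funext α
        by_cases hα : α ∈ S
        · refine Equiv.ext (fun i => ?_)
          rw [hσ.2 α hα i (Fin.is_lt _), h1]
          rfl
        · exact h2 α hα
      rw [h0, zero_smul]
      rfl
    · intro hn
      exact absurd (Finset.mem_filter.2 ⟨Finset.mem_univ _, fun _ _ _ _ => rfl⟩) hn
  rw [e] at hx
  exact pow_eq_zero_iff (Nat.pos_iff_ne_zero.1 hl) |>.1 hx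

/-- **DEC**. -/
theorem DEC (hBAS : BAS_stmt) (hIDB : IDB_stmt) (hEXP : EXP_stmt) (hSTC : STC_stmt) : DEC_stmt := by
  intro K _ d l Q G S A s₀ hl hs g hg hH
  obtain ⟨B, hB⟩ := hBAS K (Fin d) Q G.F
  obtain ⟨κ, iκ, J, b, r, h1, h2, h3, h4, h5⟩ := hEXP K (Fin d) Q G.F B hB S s₀ hs g hg
  have hInd : G.F.Ind J b := hIDB K (Fin d) Q G.F B hB κ J b h2 h4
  have key : ∀ k₀, J k₀ = S → r k₀ = 0 := by
    intro k₀ hk
    have ind : ∀ m, m ≤ l → GmC l (nw K S A s₀) m (J k₀) s₀ (∑ k, b k * r k) (r k₀) = 0 := by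
      intro m
      induction m with
      | zero =>
        intro _
        rw [DEC_zero, ← h5]
        exact hH
      | succ m ih =>
        intro hm
        exact hSTC K d l Q G S _ s₀ κ J b r h1 (fun k => hB.mem _ _ (h2 k)) h3 hInd k₀ m
          (by omega) (ih (by omega))
    have hlast := ind l le_rfl
    rw [hk] at hlast
    exact DEC_last S A s₀ hl _ _ hlast
  rw [h5]
  refine Submodule.sum_mem _ (fun k _ => ?_)
  by_cases hk : J k = S
  · rw [key k hk, mul_zero]
    exact Submodule.zero_mem _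
  · refine Submodule.subset_span ⟨J k, S \ J k, ⟨s₀, (h1 k).1⟩, ?_, Finset.disjoint_sdiff,
      Finset.union_sdiff_of_subset (h1 k).2, b k, hB.mem _ _ (h2 k), r k, h3 k, rfl⟩
    rw [Finset.sdiff_nonempty]
    intro hsub
    exact hk (Finset.Subset.antisymm (h1 k).2 hsub)

end Pool.Agent.helper57.MS
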