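import Pool.Agent.helper57.MS.Spec

/-! Row EXS: existence of expansions, span version -/

set_option autoImplicit false

namespace Pool.Agent.helper57.MS

open Finset Pool.Agent.RRank Pool.Agent.helper26.IM

/-- the span of the products -/
def EXS_W {K : Type} [Field K] {Ω : Type} [DecidableEq Ω] {Q : Ω → Type} (F : FSys K Ω Q)
    (B : Finset Ω → Set (((ω : Ω) → Q ω) → K)) (S : Finset Ω) (s : Ω) :
    Submodule K (((ω : Ω) → Q ω) → K) :=
  Submodule.span K {v | ∃ J : Finset Ω, ∃ b ∈ {b | b ∈ B J ∧ s ∈ J ∧ J ⊆ S}, ∃ h ∈ F.E (S \ J),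
    v = b * h}

lemma EXS_mul {K : Type} [Field K] {Ω : Type} [DecidableEq Ω] {Q : Ω → Type} (F : FSys K Ω Q)
    (B : Finset Ω → Set (((ω : Ω) → Q ω) → K)) (S S' S'' : Finset Ω) (s : Ω)
    (hd : Disjoint S' S'') (hu : S' ∪ S'' = S) (f : ((ω : Ω) → Q ω) → K)
    (hf : f ∈ EXS_W F B S' s) (g : ((ω : Ω) → Q ω) → K) (hg : g ∈ F.E S'') :
    f * g ∈ EXS_W F B S s := by
  unfold EXS_W at hf
  induction hf using Submodule.span_induction with
  | mem v hv =>
    obtain ⟨J, b, ⟨hb, hsJ, hJ⟩, h, hh, rfl⟩ := hv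
    refine Submodule.subset_span ⟨J, b, ⟨hb, hsJ, hJ.trans (hu ▸ Finset.subset_union_left)⟩,
      h * g, ?_, mul_assoc _ _ _⟩
    refine (F.E (S \ J)).mul_mem (F.mono _ _ ?_ hh) (F.mono _ _ ?_ hg)
    · intro x hx
      rw [Finset.mem_sdiff] at hx ⊢
      exact ⟨hu ▸ Finset.mem_union_left _ hx.1, hx.2⟩
    · intro x hx
      rw [Finset.mem_sdiff]
      exact ⟨hu ▸ Finset.mem_union_right _ hx, fun hxJ =>
        (Finset.disjoint_left.1 hd (hJ hxJ)) hx⟩
  | zero =>
    rw [zero_mul]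
    exact Submodule.zero_mem _
  | add x y _ _ hx hy =>
    rw [add_mul]
    exact Submodule.add_mem _ hx hy
  | smul c x _ hx =>
    rw [smul_mul_assoc]
    exact Submodule.smul_mem _ _ hx

lemma EXS_main {K : Type} [Field K] {Ω : Type} [DecidableEq Ω] {Q : Ω → Type} (F : FSys K Ω Q)
    (B : Finset Ω → Set (((ω : Ω) → Q ω) → K)) (hB : F.IsB B) (n : ℕ) :
    ∀ (S : Finset Ω) (s : Ω), S.card = n → s ∈ S → ∀ g ∈ F.E S, g ∈ EXS_W F B S s := by
  induction n using Nat.strong_induction_on with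
  | _ n ih =>
    intro S s hn hs g hg
    have h1 := hB.span S g hg
    have h2 : Submodule.span K (B S) ≤ EXS_W F B S s := by
      rw [Submodule.span_le]
      intro b hb
      exact Submodule.subset_span ⟨S, b, ⟨hb, hs, Finset.Subset.refl _⟩, 1, (F.E _).one_mem,
        (mul_one b).symm⟩
    have h3 : F.D S ≤ EXS_W F B S s := by
      unfold FSys.D
      rw [Submodule.span_le]
      rintro _ ⟨S', S'', hS', hS'', hd, hu, f, hf, f', hf', rfl⟩
      have hc : S'.card + S''.card = S.card := by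
        rw [← hu, Finset.card_union_of_disjoint hd]
      have hp' := Finset.card_pos.2 hS'
      have hp'' := Finset.card_pos.2 hS''
      have hs' : s ∈ S' ∪ S'' := hu ▸ hs
      rcases Finset.mem_union.1 hs' with h4 | h4
      · exact EXS_mul F B S S' S'' s hd hu f (ih S'.card (by omega) S' s rfl h4 f hf) f' hf'
      · rw [mul_comm]
        exact EXS_mul F B S S'' S' s hd.symm (by rw [Finset.union_comm]; exact hu) f'
          (ih S''.card (by omega) S'' s rfl h4 f' hf') f hf
    exact (sup_le h2 h3) h1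

/-- **EXS**. -/
theorem EXS : EXS_stmt := by
  intro K _ Ω _ Q F B hB S s hs g hg
  exact EXS_main F B hB S.card S s rfl hs g hg

end Pool.Agent.helper57.MS
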