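import Pool.Agent.helper57.MS.Spec

/-! Row ST0: the partial sum for `m = 0` -/

set_option autoImplicit false

namespace Pool.Agent.helper57.MS

open Finset Pool.Agent.RRank Pool.Agent.helper26.IM

/-- **ST0**. -/
theorem ST0 : ST0_stmt := by
  intro K _ d l Q A J s₀ g g₀
  unfold Gm H
  rw [Finset.filter_true_of_mem]
  · refine Finset.sum_congr rfl (fun σ _ => ?_)
    congr 1
  · intro σ _ α _ i hi
    exact absurd hi (Nat.not_lt_zero _)

end Pool.Agent.helper57.MS
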